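import Mathlib

/-!
# Sample complexity of testing `H`-freeness of edge distributions

For every simple graph `H` with `k ≥ 2` edges, every `ε ∈ (0,1)` and every `n ≥ 2`, distribution-free
sample-based testing of `H`-freeness of subsets of the pairs of `[n]` needs at most
`(15 k / ε) * ex(n,H)^(1 - 1/k)` labelled samples.

Idea: run, on `N = O(ex(n,H)/ε)` ghost samples, of which each one is kept with probability
`p = ex(n,H)^(-1/k)`, an online process maintaining an `H`-free set `R` of edges.  A new sample with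
label `1` outside `R` (this has probability at least `ε`, since `R` is `H`-free) is either added to
`R` or completes a copy `h` of `H`; in the second case `h` is removed from `R`, and all its `k` edges
were kept with probability `p^k`.  The potential `r^(ex(n,H) - |R|)` with `r = 1 - p^k/k` shows that
with high probability some copy of `H` is kept completely.
-/

open Finset

namespace Pool.Agent.Results.MP_c13ef9_lc.SampleComplexity

/-! ## Definitions used in the statement -/

/-- A randomized algorithm which receives `m` labelled samples `(x, label)` from `Λ × {0,1}`: to the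
received samples it assigns a probability distribution on its two possible answers, `true` (accept)
and `false` (reject). -/
abbrev Algorithm (Λ : Type*) (m : ℕ) := (Fin m → Λ × Bool) → PMF Bool

/-- The probability that the algorithm `A` gives the answer `b` on the labelled samples
`(x i, f (x i))`, `i < m`, where the `x i` are drawn independently from `μ`. -/
noncomputable def answerProb {Λ : Type*} [Fintype Λ] {m : ℕ} (A : Algorithm Λ m) (μ : PMF Λ)
    (f : Λ → Bool) (b : Bool) : ℝ :=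
  ∑ x : Fin m → Λ, (∏ i, (μ (x i)).toReal) * (A (fun i => (x i, f (x i))) b).toReal

/-- `Pr_{x ∼ μ}[f x ≠ g x]`. -/
noncomputable def dist {Λ : Type*} [Fintype Λ] (μ : PMF Λ) (f g : Λ → Bool) : ℝ :=
  ∑ x with f x ≠ g x, (μ x).toReal

/-- `A` is a distribution-free sample-based tester for the family `ℋ` with distance parameter `ε`. -/
def IsTester {Λ : Type*} [Fintype Λ] (ℋ : Set (Λ → Bool)) (ε : ℝ) {m : ℕ} (A : Algorithm Λ m) :
    Prop :=
  ∀ (μ : PMF Λ) (f : Λ → Bool),
    (f ∈ ℋ → 2 / 3 ≤ answerProb A μ f true) ∧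
    ((∀ g ∈ ℋ, ε ≤ dist μ f g) → 2 / 3 ≤ answerProb A μ f false)

/-- The positive integers `m` for which some tester for `ℋ` uses `m` labelled samples. -/
def sampleSizes {Λ : Type*} [Fintype Λ] (ℋ : Set (Λ → Bool)) (ε : ℝ) : Set ℕ :=
  {m | 0 < m ∧ ∃ A : Algorithm Λ m, IsTester ℋ ε A}

/-- `sam(ℋ, ε)`: the least positive integer `m` such that `m` labelled samples suffice. -/
noncomputable def sam {Λ : Type*} [Fintype Λ] (ℋ : Set (Λ → Bool)) (ε : ℝ) : ℕ :=
  sInf (sampleSizes ℋ ε)

/-- The set `[n] choose 2` of unordered pairs of distinct elements of `Fin n`. -/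
abbrev Pair (n : ℕ) := {e : Sym2 (Fin n) // ¬ e.IsDiag}

/-- The graph on `Fin n` whose edge set is the set of pairs with label `true`. -/
def graphOf {n : ℕ} (f : Pair n → Bool) : SimpleGraph (Fin n) :=
  SimpleGraph.fromEdgeSet {e | ∃ h : ¬ e.IsDiag, f ⟨e, h⟩ = true}

/-- The family of (indicator functions of) edge sets of graphs on `Fin n` with no subgraph (not
necessarily induced) isomorphic to `H`. -/
def hFree {V : Type*} (n : ℕ) (H : SimpleGraph V) : Set (Pair n → Bool) :=
  {f | H.Free (graphOf f)}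

/-! ## Proof -/

set_option linter.unusedSectionVars false

section General

variable {Λ : Type*} [DecidableEq Λ]

/-- Expectation of `φ K` where `K` is a random subset of `R`, every element being kept
independently with probability `p`. -/
noncomputable def Ex (p : ℝ) (R : Finset Λ) (φ : Finset Λ → ℝ) : ℝ :=
  ∑ K ∈ R.powerset, p ^ K.card * (1 - p) ^ (R.card - K.card) * φ K

theorem Ex_empty (p : ℝ) (φ : Finset Λ → ℝ) : Ex p ∅ φ = φ ∅ := by
  simp [Ex]

theorem Ex_insert (p : ℝ) {s : Λ} {R : Finset Λ} (hs : s ∉ R) (φ : Finset Λ → ℝ) :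
    Ex p (insert s R) φ = Ex p R (fun K => (1 - p) * φ K + p * φ (insert s K)) := by
  unfold Ex
  rw [Finset.sum_powerset_insert hs, ← Finset.sum_add_distrib]
  refine Finset.sum_congr rfl fun K hK => ?_
  rw [Finset.mem_powerset] at hK
  have hsK : s ∉ K := fun h => hs (hK h)
  rw [Finset.card_insert_of_notMem hs, Finset.card_insert_of_notMem hsK]
  have hle := Finset.card_le_card hK
  have h1 : R.card + 1 - K.card = (R.card - K.card) + 1 := by omega
  have h2 : R.card + 1 - (K.card + 1) = R.card - K.card := by omega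
  rw [h1, h2]
  ring

theorem Ex_mono {p : ℝ} (hp0 : 0 ≤ p) (hp1 : p ≤ 1) (R : Finset Λ) {φ ψ : Finset Λ → ℝ}
    (h : ∀ K, φ K ≤ ψ K) : Ex p R φ ≤ Ex p R ψ := by
  unfold Ex
  refine Finset.sum_le_sum fun K _ => ?_
  refine mul_le_mul_of_nonneg_left (h K) ?_
  have : 0 ≤ 1 - p := by linarith
  positivity

theorem Ex_nonneg {p : ℝ} (hp0 : 0 ≤ p) (hp1 : p ≤ 1) (R : Finset Λ) {φ : Finset Λ → ℝ}
    (h : ∀ K, 0 ≤ φ K) : 0 ≤ Ex p R φ := by
  unfold Ex
  refine Finset.sum_nonneg fun K _ => ?_
  have : 0 ≤ 1 - p := by linarith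
  have := h K
  positivity

theorem Ex_add (p : ℝ) (R : Finset Λ) (φ ψ : Finset Λ → ℝ) :
    Ex p R (fun K => φ K + ψ K) = Ex p R φ + Ex p R ψ := by
  unfold Ex
  rw [← Finset.sum_add_distrib]
  exact Finset.sum_congr rfl fun K _ => by ring

theorem Ex_smul (p c : ℝ) (R : Finset Λ) (φ : Finset Λ → ℝ) :
    Ex p R (fun K => c * φ K) = c * Ex p R φ := by
  unfold Ex
  rw [Finset.mul_sum]
  exact Finset.sum_congr rfl fun K _ => by ring

theorem Ex_sum {ι : Type*} (p : ℝ) (R : Finset Λ) (t : Finset ι) (φ : ι → Finset Λ → ℝ) :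
    Ex p R (fun K => ∑ i ∈ t, φ i K) = ∑ i ∈ t, Ex p R (φ i) := by
  unfold Ex
  rw [Finset.sum_comm]
  exact Finset.sum_congr rfl fun K _ => by rw [Finset.mul_sum]

/-- Dropping the elements of `h`. -/
theorem Ex_union_le {p : ℝ} (hp0 : 0 ≤ p) (hp1 : p ≤ 1) (R : Finset Λ) (h : Finset Λ) :
    Disjoint h R → ∀ φ : Finset Λ → ℝ, Antitone φ →
    Ex p (h ∪ R) φ ≤ (1 - p ^ h.card) * Ex p R φ + p ^ h.card * Ex p R (fun K => φ (h ∪ K)) := by
  have hq : 0 ≤ 1 - p := by linarith
  induction h using Finset.induction_on with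
  | empty => intro _ φ _; simp
  | insert s h hs ih =>
    intro hdis φ hφ
    rw [Finset.disjoint_insert_left] at hdis
    have hsR : s ∉ h ∪ R := by
      rw [Finset.mem_union]; push Not; exact ⟨hs, hdis.1⟩
    rw [Finset.insert_union, Ex_insert p hsR, Finset.card_insert_of_notMem hs]
    have hφs : Antitone (fun K => φ (insert s K)) :=
      fun a b hab => hφ (Finset.insert_subset_insert s hab)
    have e1 : Ex p (h ∪ R) (fun K => (1 - p) * φ K + p * φ (insert s K)) =
        (1 - p) * Ex p (h ∪ R) φ + p * Ex p (h ∪ R) (fun K => φ (insert s K)) := by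
      rw [Ex_add p (h ∪ R) (fun K => (1 - p) * φ K) (fun K => p * φ (insert s K)), Ex_smul,
        Ex_smul]
    rw [e1]
    have i1 := ih hdis.2 φ hφ
    have i2 := ih hdis.2 _ hφs
    have pk0 : 0 ≤ p ^ h.card := by positivity
    have pk1 : p ^ h.card ≤ 1 := pow_le_one₀ hp0 hp1
    -- bound on i1
    have j1 : Ex p R (fun K => φ (h ∪ K)) ≤ Ex p R φ :=
      Ex_mono hp0 hp1 R (fun K => hφ Finset.subset_union_right)
    have j2 : Ex p R (fun K => φ (insert s K)) ≤ Ex p R φ :=
      Ex_mono hp0 hp1 R (fun K => hφ (Finset.subset_insert s K))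
    have i1' : Ex p (h ∪ R) φ ≤ Ex p R φ := by
      have := mul_le_mul_of_nonneg_left j1 pk0
      linarith
    have j3 : (fun K => φ (insert s (h ∪ K))) = (fun K => φ (insert s h ∪ K)) := by
      funext K; rw [Finset.insert_union]
    rw [j3] at i2
    have k1 : (1 - p) * Ex p (h ∪ R) φ ≤ (1 - p) * Ex p R φ :=
      mul_le_mul_of_nonneg_left i1' hq
    have k2 : p * Ex p (h ∪ R) (fun K => φ (insert s K)) ≤
        p * ((1 - p ^ h.card) * Ex p R φ + p ^ h.card * Ex p R (fun K => φ (insert s h ∪ K))) := by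
      refine mul_le_mul_of_nonneg_left (i2.trans ?_) hp0
      have := mul_le_mul_of_nonneg_left j2 (sub_nonneg.2 pk1)
      linarith
    calc (1 - p) * Ex p (h ∪ R) φ + p * Ex p (h ∪ R) (fun K => φ (insert s K))
        ≤ (1 - p) * Ex p R φ +
          p * ((1 - p ^ h.card) * Ex p R φ + p ^ h.card * Ex p R (fun K => φ (insert s h ∪ K))) :=
          add_le_add k1 k2
      _ = _ := by ring

variable [Fintype Λ]

/-- Add a labelled sample: only samples lying in `E` (those with label `1`) matter. -/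
def addS (E : Finset Λ) (s : Λ) (K : Finset Λ) : Finset Λ := if s ∈ E then insert s K else K

theorem subset_addS (E : Finset Λ) (s : Λ) (K : Finset Λ) : K ⊆ addS E s K := by
  unfold addS; split_ifs
  · exact Finset.subset_insert s K
  · exact Finset.Subset.refl K

theorem addS_mono (E : Finset Λ) (s : Λ) {K K' : Finset Λ} (h : K ⊆ K') :
    addS E s K ⊆ addS E s K' := by
  unfold addS; split_ifs
  · exact Finset.insert_subset_insert s h
  · exact h

open Classical in
/-- Probability that the set `K` together with the samples in `E` among `m` independent samples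
from `w` satisfies `I`. -/
noncomputable def Bad (w : Λ → ℝ) (E : Finset Λ) (I : Finset Λ → Prop) : ℕ → Finset Λ → ℝ
  | 0, K => if I K then 1 else 0
  | m + 1, K => ∑ s, w s * Bad w E I m (addS E s K)

open Classical in
/-- The same, when each of `N` independent samples is only kept with probability `p`. -/
noncomputable def Lazy (w : Λ → ℝ) (E : Finset Λ) (I : Finset Λ → Prop) (p : ℝ) :
    ℕ → Finset Λ → ℝ
  | 0, K => if I K then 1 else 0
  | N + 1, K => (1 - p) * Lazy w E I p N K + p * ∑ s, w s * Lazy w E I p N (addS E s K)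

variable {w : Λ → ℝ} {E : Finset Λ} {I : Finset Λ → Prop}

theorem Bad_nonneg (hw : ∀ s, 0 ≤ w s) (m : ℕ) (K : Finset Λ) : 0 ≤ Bad w E I m K := by
  induction m generalizing K with
  | zero => unfold Bad; split_ifs <;> norm_num
  | succ m ih => unfold Bad; exact Finset.sum_nonneg fun s _ => mul_nonneg (hw s) (ih _)

theorem Bad_antitone (hw : ∀ s, 0 ≤ w s) (hI : ∀ ⦃S T : Finset Λ⦄, S ⊆ T → I T → I S) (m : ℕ) :
    Antitone (Bad w E I m) := by
  induction m with
  | zero =>
    intro K K' h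
    unfold Bad
    by_cases h' : I K'
    · simp [h', hI h h']
    · simp only [h', if_false]; split_ifs <;> norm_num
  | succ m ih =>
    intro K K' h
    unfold Bad
    exact Finset.sum_le_sum fun s _ => mul_le_mul_of_nonneg_left (ih (addS_mono E s h)) (hw s)

theorem Bad_succ_le (hw : ∀ s, 0 ≤ w s) (hw1 : ∑ s, w s = 1)
    (hI : ∀ ⦃S T : Finset Λ⦄, S ⊆ T → I T → I S) (m : ℕ) (K : Finset Λ) :
    Bad w E I (m + 1) K ≤ Bad w E I m K := by
  rw [Bad]
  calc ∑ s, w s * Bad w E I m (addS E s K) ≤ ∑ s, w s * Bad w E I m K :=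
        Finset.sum_le_sum fun s _ => mul_le_mul_of_nonneg_left
          (Bad_antitone hw hI m (subset_addS E s K)) (hw s)
    _ = Bad w E I m K := by rw [← Finset.sum_mul, hw1, one_mul]

theorem Bad_le_zero (hw : ∀ s, 0 ≤ w s) (hw1 : ∑ s, w s = 1)
    (hI : ∀ ⦃S T : Finset Λ⦄, S ⊆ T → I T → I S) (m : ℕ) (K : Finset Λ) :
    Bad w E I m K ≤ Bad w E I 0 K := by
  induction m with
  | zero => exact le_refl _
  | succ m ih => exact (Bad_succ_le hw hw1 hI m K).trans ih

theorem Lazy_nonneg {p : ℝ} (hp0 : 0 ≤ p) (hp1 : p ≤ 1) (hw : ∀ s, 0 ≤ w s) (N : ℕ)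
    (K : Finset Λ) : 0 ≤ Lazy w E I p N K := by
  induction N generalizing K with
  | zero => unfold Lazy; split_ifs <;> norm_num
  | succ m ih =>
    unfold Lazy
    have h1 : 0 ≤ 1 - p := by linarith
    have h2 : 0 ≤ ∑ s, w s * Lazy w E I p m (addS E s K) :=
      Finset.sum_nonneg fun s _ => mul_nonneg (hw s) (ih _)
    have h3 := ih K
    positivity

theorem Lazy_antitone {p : ℝ} (hp0 : 0 ≤ p) (hp1 : p ≤ 1) (hw : ∀ s, 0 ≤ w s)
    (hI : ∀ ⦃S T : Finset Λ⦄, S ⊆ T → I T → I S) (N : ℕ) :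
    Antitone (Lazy w E I p N) := by
  induction N with
  | zero =>
    intro K K' h
    unfold Lazy
    by_cases h' : I K'
    · simp [h', hI h h']
    · simp only [h', if_false]; split_ifs <;> norm_num
  | succ m ih =>
    intro K K' h
    unfold Lazy
    have h1 : 0 ≤ 1 - p := by linarith
    refine add_le_add (mul_le_mul_of_nonneg_left (ih h) h1) (mul_le_mul_of_nonneg_left ?_ hp0)
    exact Finset.sum_le_sum fun s _ => mul_le_mul_of_nonneg_left (ih (addS_mono E s h)) (hw s)

theorem Lazy_eq_zero {p : ℝ} (hI : ∀ ⦃S T : Finset Λ⦄, S ⊆ T → I T → I S) (N : ℕ)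
    (K : Finset Λ) (hK : ¬ I K) : Lazy w E I p N K = 0 := by
  induction N generalizing K with
  | zero => unfold Lazy; simp [hK]
  | succ m ih =>
    unfold Lazy
    rw [ih K hK, mul_zero, zero_add]
    have : ∀ s, w s * Lazy w E I p m (addS E s K) = 0 := fun s => by
      rw [ih _ (fun h => hK (hI (subset_addS E s K) h)), mul_zero]
    simp [this]

/-- Comparison of the lazy process with the process with `m` samples. -/
theorem Bad_le_Lazy {p : ℝ} (hp0 : 0 ≤ p) (hp1 : p ≤ 1) (hw : ∀ s, 0 ≤ w s)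
    (hw1 : ∑ s, w s = 1) (hI : ∀ ⦃S T : Finset Λ⦄, S ⊆ T → I T → I S) (N : ℕ) :
    ∀ (m : ℕ) (K : Finset Λ),
      (1 - (1 + p) ^ N / 2 ^ m) * Bad w E I m K ≤ Lazy w E I p N K := by
  induction N with
  | zero =>
    intro m K
    have h0 := Bad_nonneg (E := E) (I := I) hw m K
    have h1 := Bad_le_zero (E := E) hw hw1 hI m K
    have h2 : Bad w E I 0 K = Lazy w E I p 0 K := by simp [Bad, Lazy]
    have h3 : (0:ℝ) < 1 / 2 ^ m := by positivity
    rw [pow_zero]
    nlinarith
  | succ N ih =>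
    intro m K
    cases m with
    | zero =>
      have h0 := Bad_nonneg (E := E) (I := I) hw 0 K
      have h1 := Lazy_nonneg (E := E) (I := I) hp0 hp1 hw (N + 1) K
      have h2 : (1:ℝ) ≤ (1 + p) ^ (N + 1) := one_le_pow₀ (by linarith)
      have h3 : (1 - (1 + p) ^ (N + 1) / 2 ^ 0) ≤ 0 := by
        rw [pow_zero, div_one]; linarith
      exact (mul_nonpos_of_nonpos_of_nonneg h3 h0).trans h1
    | succ m =>
      have hq : 0 ≤ 1 - p := by linarith
      have i1 := ih (m + 1) K
      have i2 : (1 - (1 + p) ^ N / 2 ^ m) * Bad w E I (m + 1) K ≤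
          ∑ s, w s * Lazy w E I p N (addS E s K) := by
        rw [Bad, Finset.mul_sum]
        refine Finset.sum_le_sum fun s _ => ?_
        have := mul_le_mul_of_nonneg_left (ih m (addS E s K)) (hw s)
        calc _ = w s * ((1 - (1 + p) ^ N / 2 ^ m) * Bad w E I m (addS E s K)) := by ring
          _ ≤ _ := this
      have e : Lazy w E I p (N + 1) K =
        (1 - p) * Lazy w E I p N K + p * ∑ s, w s * Lazy w E I p N (addS E s K) := rfl
      rw [e]
      have k1 := mul_le_mul_of_nonneg_left i1 hq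
      have k2 := mul_le_mul_of_nonneg_left i2 hp0
      have : (1 - (1 + p) ^ (N + 1) / 2 ^ (m + 1)) * Bad w E I (m + 1) K =
        (1 - p) * ((1 - (1 + p) ^ N / 2 ^ (m + 1)) * Bad w E I (m + 1) K) +
        p * ((1 - (1 + p) ^ N / 2 ^ m) * Bad w E I (m + 1) K) := by
        rw [pow_succ (1 + p) N, pow_succ (2:ℝ) m]
        field_simp
        ring
      rw [this]
      exact add_le_add k1 k2

/-- The main estimate: the potential argument. -/
theorem Ex_Lazy_le {p ε : ℝ} (hp0 : 0 ≤ p) (hp1 : p ≤ 1) (hε0 : 0 ≤ ε) (hε1 : ε ≤ 1)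
    (hw : ∀ s, 0 ≤ w s)
    (hw1 : ∑ s, w s = 1) (hI : ∀ ⦃S T : Finset Λ⦄, S ⊆ T → I T → I S)
    {k d : ℕ} (hk : 1 ≤ k)
    (hforb : ∀ S, S ⊆ E → ¬ I S → ∃ h ⊆ S, h.card = k ∧ ¬ I h)
    (hd : ∀ S, S ⊆ E → I S → S.card ≤ d)
    (hfar : ∀ S, S ⊆ E → I S → ε ≤ ∑ s ∈ E \ S, w s) {r : ℝ}
    (hr0 : 0 < r) (hr1 : r ≤ 1) (hrk : 1 - p ^ k ≤ r ^ k) (N : ℕ) :
    ∀ R, R ⊆ E → I R →
      r ^ (d - R.card) * Ex p R (Lazy w E I p N) ≤ (1 - ε * (1 - r)) ^ N := by
  have hθ : 0 ≤ 1 - ε * (1 - r) := by nlinarith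
  induction N with
  | zero =>
    intro R hRE hR
    rw [pow_zero]
    have h1 : Ex p R (Lazy w E I p 0) ≤ Ex p R (fun _ => 1) := by
      refine Ex_mono hp0 hp1 R fun K => ?_
      unfold Lazy; split_ifs <;> norm_num
    have h2 : Ex p R (fun _ => (1:ℝ)) = 1 := by
      clear h1 hR hRE
      induction R using Finset.induction_on with
      | empty => rw [Ex_empty]
      | insert s R hs ih =>
        rw [Ex_insert p hs]
        have : (fun _ : Finset Λ => (1 - p) * 1 + p * (1:ℝ)) = fun _ => 1 := by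
          funext; ring
        rw [this, ih]
    have h3 : r ^ (d - R.card) ≤ 1 := pow_le_one₀ hr0.le hr1
    have h4 : 0 ≤ Ex p R (Lazy w E I p 0) := Ex_nonneg hp0 hp1 R (Lazy_nonneg hp0 hp1 hw 0)
    have h5 : (0:ℝ) ≤ r ^ (d - R.card) := by positivity
    nlinarith
  | succ N ih =>
    intro R hRE hR
    -- expand one step
    have e1 : Ex p R (Lazy w E I p (N + 1)) =
        ∑ s, w s * Ex p R (fun K => (1 - p) * Lazy w E I p N K +
          p * Lazy w E I p N (addS E s K)) := by
      have : (Lazy w E I p (N + 1)) = fun K => ∑ s, w s * ((1 - p) * Lazy w E I p N K +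
          p * Lazy w E I p N (addS E s K)) := by
        funext K
        rw [Lazy]
        have h1 : ∀ s, w s * ((1 - p) * Lazy w E I p N K + p * Lazy w E I p N (addS E s K)) =
          w s * ((1 - p) * Lazy w E I p N K) + p * (w s * Lazy w E I p N (addS E s K)) :=
          fun s => by ring
        simp_rw [h1]
        rw [Finset.sum_add_distrib, ← Finset.sum_mul, hw1, one_mul, Finset.mul_sum]
      rw [this, Ex_sum]
      exact Finset.sum_congr rfl fun s _ => Ex_smul _ _ _ _
    have hpos : (0:ℝ) < r ^ (d - R.card) := by positivity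
    set θ := 1 - ε * (1 - r) with hθdef
    -- uniform bound for each s
    have key1 : ∀ s, s ∉ E \ R → r ^ (d - R.card) * Ex p R (fun K => (1 - p) * Lazy w E I p N K +
          p * Lazy w E I p N (addS E s K)) ≤ θ ^ N := by
      intro s _
      refine le_trans (mul_le_mul_of_nonneg_left ?_ hpos.le) (ih R hRE hR)
      refine Ex_mono hp0 hp1 R fun K => ?_
      have := Lazy_antitone (E := E) hp0 hp1 hw hI N (subset_addS E s K)
      nlinarith
    have key2 : ∀ s, s ∈ E \ R → r ^ (d - R.card) * Ex p R (fun K => (1 - p) * Lazy w E I p N K +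
          p * Lazy w E I p N (addS E s K)) ≤ r * θ ^ N := by
      intro s hs
      rw [Finset.mem_sdiff] at hs
      have e2 : (fun K => (1 - p) * Lazy w E I p N K + p * Lazy w E I p N (addS E s K)) =
        (fun K => (1 - p) * Lazy w E I p N K + p * Lazy w E I p N (insert s K)) := by
        funext K; rw [addS, if_pos hs.1]
      rw [e2, ← Ex_insert p hs.2]
      have hsub : insert s R ⊆ E := Finset.insert_subset hs.1 hRE
      by_cases hins : I (insert s R)
      · have := ih _ hsub hins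
        have hcard := hd _ hsub hins
        rw [Finset.card_insert_of_notMem hs.2] at this hcard
        have e3 : d - R.card = (d - (R.card + 1)) + 1 := by omega
        rw [e3, pow_succ]
        calc r ^ (d - (R.card + 1)) * r * Ex p (insert s R) (Lazy w E I p N)
            = r * (r ^ (d - (R.card + 1)) * Ex p (insert s R) (Lazy w E I p N)) := by ring
          _ ≤ r * θ ^ N := mul_le_mul_of_nonneg_left this hr0.le
      · obtain ⟨h, hh, hhk, hhI⟩ := hforb _ hsub hins
        have hsh : s ∈ h := by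
          by_contra hcon
          apply hhI
          refine hI ?_ hR
          intro x hx
          rcases Finset.mem_insert.1 (hh hx) with rfl | hx'
          · exact absurd hx hcon
          · exact hx'
        set R' := (insert s R) \ h with hR'
        have hR'R : R' ⊆ R := by
          intro x hx
          rw [hR', Finset.mem_sdiff, Finset.mem_insert] at hx
          rcases hx.1 with rfl | hx'
          · exact absurd hsh hx.2
          · exact hx'
        have hdec : insert s R = h ∪ R' := by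
          rw [hR', Finset.union_sdiff_of_subset hh]
        have hdis : Disjoint h R' := by rw [hR']; exact Finset.disjoint_sdiff
        have hR'E : R' ⊆ E := hR'R.trans hRE
        have hR'I : I R' := hI hR'R hR
        have hcard : R.card + 1 = k + R'.card := by
          rw [← Finset.card_insert_of_notMem hs.2, hdec, Finset.card_union_of_disjoint hdis, hhk]
        have h1 := Ex_union_le hp0 hp1 R' h hdis _ (Lazy_antitone (E := E) hp0 hp1 hw hI N)
        have h2 : Ex p R' (fun K => Lazy w E I p N (h ∪ K)) = 0 := by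
          have : (fun K => Lazy w E I p N (h ∪ K)) = fun _ => (0:ℝ) := by
            funext K
            exact Lazy_eq_zero hI N _ (fun hc => hhI (hI Finset.subset_union_left hc))
          rw [this]; simp [Ex]
        rw [h2, mul_zero, add_zero, hhk] at h1
        rw [hdec]
        have hR0 : 0 ≤ Ex p R' (Lazy w E I p N) := Ex_nonneg hp0 hp1 R' (Lazy_nonneg hp0 hp1 hw N)
        have hRd : R.card ≤ d := hd _ hRE hR
        have e4 : d - R'.card = (d - R.card) + (k - 1) := by omega
        have h3 := ih R' hR'E hR'I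
        rw [e4, pow_add] at h3
        calc r ^ (d - R.card) * Ex p (h ∪ R') (Lazy w E I p N)
            ≤ r ^ (d - R.card) * ((1 - p ^ k) * Ex p R' (Lazy w E I p N)) :=
              mul_le_mul_of_nonneg_left h1 hpos.le
          _ ≤ r ^ (d - R.card) * (r ^ k * Ex p R' (Lazy w E I p N)) :=
              mul_le_mul_of_nonneg_left (mul_le_mul_of_nonneg_right hrk hR0) hpos.le
          _ = r * (r ^ (d - R.card) * r ^ (k - 1) * Ex p R' (Lazy w E I p N)) := by
              have : r ^ k = r * r ^ (k - 1) := by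
                rw [← pow_succ']; congr 1; omega
              rw [this]; ring
          _ ≤ r * θ ^ N := mul_le_mul_of_nonneg_left h3 hr0.le
    rw [e1, Finset.mul_sum]
    have hθN : 0 ≤ θ ^ N := pow_nonneg hθ N
    calc ∑ s, r ^ (d - R.card) * (w s * Ex p R (fun K => (1 - p) * Lazy w E I p N K +
          p * Lazy w E I p N (addS E s K)))
        = ∑ s, w s * (r ^ (d - R.card) * Ex p R (fun K => (1 - p) * Lazy w E I p N K +
          p * Lazy w E I p N (addS E s K))) := Finset.sum_congr rfl fun s _ => by ring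
      _ = ∑ s ∈ E \ R, w s * (r ^ (d - R.card) * Ex p R (fun K => (1 - p) * Lazy w E I p N K +
          p * Lazy w E I p N (addS E s K))) + ∑ s ∈ (E \ R)ᶜ, w s * (r ^ (d - R.card) *
          Ex p R (fun K => (1 - p) * Lazy w E I p N K +
          p * Lazy w E I p N (addS E s K))) := by rw [Finset.sum_add_sum_compl]
      _ ≤ ∑ s ∈ E \ R, w s * (r * θ ^ N) + ∑ s ∈ (E \ R)ᶜ, w s * θ ^ N := by
          refine add_le_add ?_ ?_
          · exact Finset.sum_le_sum fun s hs => mul_le_mul_of_nonneg_left (key2 s hs) (hw s)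
          · exact Finset.sum_le_sum fun s hs => mul_le_mul_of_nonneg_left
              (key1 s (Finset.mem_compl.1 hs)) (hw s)
      _ = (1 - (∑ s ∈ E \ R, w s) * (1 - r)) * θ ^ N := by
          rw [← Finset.sum_mul, ← Finset.sum_mul]
          have : ∑ s ∈ (E \ R)ᶜ, w s = 1 - ∑ s ∈ E \ R, w s := by
            rw [← hw1, ← Finset.sum_add_sum_compl (E \ R)]; ring
          rw [this]; ring
      _ ≤ θ * θ ^ N := by
          refine mul_le_mul_of_nonneg_right ?_ hθN
          have := hfar R hRE hR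
          rw [hθdef]
          nlinarith
      _ = θ ^ (N + 1) := by rw [pow_succ]; ring

end General

section Sum

variable {Λ : Type*} [Fintype Λ] [DecidableEq Λ]

theorem sum_prod_eq_one {w : Λ → ℝ} (hw1 : ∑ s, w s = 1) (m : ℕ) :
    ∑ x : Fin m → Λ, ∏ i, w (x i) = 1 := by
  have := Finset.prod_univ_sum (fun _ : Fin m => (Finset.univ : Finset Λ)) (fun _ s => w s)
  rw [Fintype.piFinset_univ] at this
  rw [← this]
  simp [hw1]

open Classical in
theorem Bad_eq_sum (w : Λ → ℝ) (E : Finset Λ) (I : Finset Λ → Prop) (m : ℕ) (K : Finset Λ) :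
    Bad w E I m K = ∑ x : Fin m → Λ, (∏ i, w (x i)) *
      (if I (K ∪ (Finset.univ.image x ∩ E)) then (1:ℝ) else 0) := by
  induction m generalizing K with
  | zero => simp [Bad]
  | succ m ih =>
    rw [Bad]
    simp_rw [ih]
    rw [← (Fin.consEquiv (fun _ : Fin (m + 1) => Λ)).sum_comp, Fintype.sum_prod_type]
    refine Finset.sum_congr rfl fun s _ => ?_
    rw [Finset.mul_sum]
    refine Finset.sum_congr rfl fun x _ => ?_
    have h1 : ∏ i, w ((Fin.consEquiv (fun _ : Fin (m + 1) => Λ)) (s, x) i) =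
        w s * ∏ i, w (x i) := by
      rw [Fin.prod_univ_succ]
      simp [Fin.consEquiv]
    have h2 : K ∪ (Finset.univ.image ((Fin.consEquiv (fun _ : Fin (m + 1) => Λ)) (s, x)) ∩ E) =
        addS E s K ∪ (Finset.univ.image x ∩ E) := by
      ext e
      simp only [Finset.mem_union, Finset.mem_inter, Finset.mem_image, Finset.mem_univ, true_and,
        Fin.exists_fin_succ, Fin.consEquiv_apply, Fin.cons_zero, Fin.cons_succ, addS]
      split_ifs with hs
      · rw [Finset.mem_insert]
        constructor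
        · rintro (h | ⟨h | h, hE⟩)
          · exact Or.inl (Or.inr h)
          · exact Or.inl (Or.inl h.symm)
          · exact Or.inr ⟨h, hE⟩
        · rintro ((h | h) | h)
          · exact Or.inr ⟨Or.inl h.symm, h ▸ hs⟩
          · exact Or.inl h
          · exact Or.inr ⟨Or.inr h.1, h.2⟩
      · constructor
        · rintro (h | ⟨h | h, hE⟩)
          · exact Or.inl h
          · exact absurd (h ▸ hE) hs
          · exact Or.inr ⟨h, hE⟩
        · rintro (h | h)
          · exact Or.inl h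
          · exact Or.inr ⟨Or.inr h.1, h.2⟩
    rw [h1, h2]
    ring

end Sum

section Numeric

variable {Λ : Type*} [Fintype Λ] [DecidableEq Λ]

/-- The numerical conclusion. -/
theorem Bad_le_third {w : Λ → ℝ} {E : Finset Λ} {I : Finset Λ → Prop} {ε : ℝ} (hε0 : 0 < ε)
    (hε1 : ε ≤ 1) (hw : ∀ s, 0 ≤ w s) (hw1 : ∑ s, w s = 1)
    (hI : ∀ ⦃S T : Finset Λ⦄, S ⊆ T → I T → I S) (hI0 : I ∅)
    {k d : ℕ} (hk : 2 ≤ k) (hd1 : 1 ≤ d)
    (hforb : ∀ S, S ⊆ E → ¬ I S → ∃ h ⊆ S, h.card = k ∧ ¬ I h)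
    (hd : ∀ S, S ⊆ E → I S → S.card ≤ d)
    (hfar : ∀ S, S ⊆ E → I S → ε ≤ ∑ s ∈ E \ S, w s) :
    Bad w E I (⌈2 * ((⌈4 * (k:ℝ) * d / ε⌉₊ : ℝ) * (d:ℝ) ^ (-(1 / (k:ℝ))))⌉₊ + 4) ∅ ≤ 1 / 3 := by
  have hkR : (2:ℝ) ≤ k := by exact_mod_cast hk
  have hdR : (1:ℝ) ≤ d := by exact_mod_cast hd1
  have hkpos : (0:ℝ) < k := by linarith
  have hdpos : (0:ℝ) < d := by linarith
  set p : ℝ := (d:ℝ) ^ (-(1 / (k:ℝ))) with hp
  set N : ℕ := ⌈4 * (k:ℝ) * d / ε⌉₊ with hN
  set m : ℕ := ⌈2 * ((N:ℝ) * p)⌉₊ + 4 with hm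
  have hp0 : 0 ≤ p := by positivity
  have hp1 : p ≤ 1 := by
    rw [hp]
    apply Real.rpow_le_one_of_one_le_of_nonpos hdR
    have : 0 < 1 / (k:ℝ) := by positivity
    linarith
  have hpk : p ^ k = 1 / d := by
    rw [hp, ← Real.rpow_natCast, ← Real.rpow_mul hdpos.le]
    have : -(1 / (k:ℝ)) * k = -1 := by field_simp
    rw [this, Real.rpow_neg_one, one_div]
  -- the parameter r
  set r : ℝ := 1 - 1 / (d * k) with hr
  have hdk : (1:ℝ) / (d * k) ≤ 1 / 2 := by
    apply one_div_le_one_div_of_le (by norm_num)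
    nlinarith
  have hdk0 : (0:ℝ) < 1 / (d * k) := by positivity
  have hr0 : 0 < r := by rw [hr]; linarith
  have hr1 : r ≤ 1 := by rw [hr]; linarith
  have hrk : 1 - p ^ k ≤ r ^ k := by
    have := one_add_mul_le_pow (a := -(1 / ((d:ℝ) * k))) (by linarith) k
    have e1 : 1 + (k:ℝ) * -(1 / ((d:ℝ) * k)) = 1 - p ^ k := by
      rw [hpk]; field_simp; ring
    have e2 : 1 + -(1 / ((d:ℝ) * k)) = r := by rw [hr]; ring
    rw [e1, e2] at this
    exact this
  have hrd : 1 / 2 ≤ r ^ d := by
    have := one_add_mul_le_pow (a := -(1 / ((d:ℝ) * k))) (by linarith) d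
    have e1 : 1 + (d:ℝ) * -(1 / ((d:ℝ) * k)) = 1 - 1 / k := by
      field_simp; ring
    have e2 : 1 + -(1 / ((d:ℝ) * k)) = r := by rw [hr]; ring
    rw [e1, e2] at this
    have : (1:ℝ) / k ≤ 1 / 2 := one_div_le_one_div_of_le (by norm_num) hkR
    linarith
  have main := Ex_Lazy_le hp0 hp1 hε0.le hε1 hw hw1 hI (by omega : 1 ≤ k) hforb hd hfar hr0 hr1
    hrk N ∅ (Finset.empty_subset _) hI0
  rw [Ex_empty, Finset.card_empty, Nat.sub_zero] at main
  have hL0 : 0 ≤ Lazy w E I p N ∅ := Lazy_nonneg hp0 hp1 hw N ∅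
  -- bound the right-hand side
  have h1 : 1 - ε * (1 - r) = 1 - ε / (d * k) := by rw [hr]; ring
  have hεdk : ε / (d * k) ≤ 1 := by
    rw [div_le_one (by positivity)]; nlinarith
  have h2 : (1 - ε / (d * k)) ^ N ≤ Real.exp (-4) := by
    have hb : 1 - ε / (d * k) ≤ Real.exp (-(ε / (d * k))) := Real.one_sub_le_exp_neg _
    calc (1 - ε / (d * k)) ^ N ≤ (Real.exp (-(ε / (d * k)))) ^ N :=
          pow_le_pow_left₀ (by linarith) hb N
      _ = Real.exp (N * -(ε / (d * k))) := by rw [← Real.exp_nat_mul]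
      _ ≤ Real.exp (-4) := by
          apply Real.exp_le_exp.2
          have hNge : 4 * (k:ℝ) * d / ε ≤ N := Nat.le_ceil _
          have : 4 ≤ (N:ℝ) * (ε / (d * k)) := by
            calc (4:ℝ) = (4 * (k:ℝ) * d / ε) * (ε / (d * k)) := by field_simp
              _ ≤ _ := mul_le_mul_of_nonneg_right hNge (by positivity)
          linarith
  rw [h1] at main
  have hexp : Real.exp (-4) ≤ 1 / 16 := by
    rw [Real.exp_neg, one_div]
    apply inv_anti₀ (by norm_num)
    have h2e : (2:ℝ) ≤ Real.exp 1 := by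
      have := Real.add_one_le_exp (1:ℝ)
      linarith
    calc (16:ℝ) = 2 ^ 4 := by norm_num
      _ ≤ (Real.exp 1) ^ 4 := pow_le_pow_left₀ (by norm_num) h2e 4
      _ = Real.exp 4 := by rw [← Real.exp_nat_mul]; norm_num
  have hLazy : Lazy w E I p N ∅ ≤ 1 / 8 := by
    have := main.trans (h2.trans hexp)
    nlinarith
  have hB0 : 0 ≤ Bad w E I m ∅ := Bad_nonneg hw m ∅
  have hcmp := Bad_le_Lazy (E := E) hp0 hp1 hw hw1 hI N m ∅
  have hratio : (1 + p) ^ N / 2 ^ m ≤ 1 / 16 := by
    rw [div_le_div_iff₀ (by positivity) (by norm_num)]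
    have ha : (1 + p) ^ N ≤ 2 ^ ⌈2 * ((N:ℝ) * p)⌉₊ := by
      calc (1 + p) ^ N ≤ (Real.exp p) ^ N := by
            apply pow_le_pow_left₀ (by linarith)
            have := Real.add_one_le_exp p
            linarith
        _ = Real.exp (N * p) := by rw [← Real.exp_nat_mul]
        _ ≤ Real.exp (2 * ((N:ℝ) * p) * Real.log 2) := by
            apply Real.exp_le_exp.2
            have hl := Real.log_two_gt_d9
            have : 0 ≤ (N:ℝ) * p := by positivity
            nlinarith
        _ ≤ Real.exp ((⌈2 * ((N:ℝ) * p)⌉₊ : ℝ) * Real.log 2) := by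
            apply Real.exp_le_exp.2
            exact mul_le_mul_of_nonneg_right (Nat.le_ceil _) (Real.log_nonneg (by norm_num))
        _ = 2 ^ ⌈2 * ((N:ℝ) * p)⌉₊ := by
            rw [Real.exp_nat_mul, Real.exp_log (by norm_num)]
    rw [hm, pow_add]
    nlinarith
  nlinarith

end Numeric

section Graph

open Classical

variable {V : Type*} [Finite V] {H : SimpleGraph V} {n : ℕ}

/-- `H`-freeness of the graph with edge set `K`. -/
def Indep (H : SimpleGraph V) (K : Finset (Pair n)) : Prop :=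
  H.Free (SimpleGraph.fromEdgeSet ((fun e : Pair n => (e : Sym2 (Fin n))) '' (K : Set (Pair n))))

theorem Indep_mono ⦃S T : Finset (Pair n)⦄ (h : S ⊆ T) (hT : Indep H T) : Indep H S := by
  intro hS
  exact hT (hS.trans_le (SimpleGraph.fromEdgeSet_mono (Set.image_mono (by exact_mod_cast h))))

theorem exists_forbidden {S : Finset (Pair n)} (hS : ¬ Indep H S) :
    ∃ h ⊆ S, h.card = H.edgeSet.ncard ∧ ¬ Indep H h := by
  unfold Indep at hS
  rw [SimpleGraph.Free, not_not] at hS
  obtain ⟨φ⟩ := hS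
  have hinj : Function.Injective (Sym2.map φ) := Sym2.map.injective φ.injective
  set h : Finset (Pair n) := Finset.univ.filter
    (fun e : Pair n => (e : Sym2 (Fin n)) ∈ Sym2.map φ '' H.edgeSet) with hh
  have himg : (fun e : Pair n => (e : Sym2 (Fin n))) '' (h : Set (Pair n)) =
      Sym2.map φ '' H.edgeSet := by
    ext e
    constructor
    · rintro ⟨x, hx, rfl⟩
      rw [hh] at hx
      simpa using hx
    · rintro ⟨x, hx, rfl⟩
      have hx' : Sym2.map φ x ∈ (SimpleGraph.fromEdgeSet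
          ((fun e : Pair n => (e : Sym2 (Fin n))) '' (S : Set (Pair n)))).edgeSet :=
        SimpleGraph.Hom.map_mem_edgeSet φ.toHom hx
      have hnd : ¬ (Sym2.map φ x).IsDiag := SimpleGraph.not_isDiag_of_mem_edgeSet _ hx'
      refine ⟨⟨Sym2.map φ x, hnd⟩, ?_, rfl⟩
      rw [hh]
      simp only [Finset.coe_filter, Finset.mem_univ, true_and, Set.mem_ofPred_eq]
      exact ⟨x, hx, rfl⟩
  refine ⟨h, ?_, ?_, ?_⟩
  · intro e he
    have : (e : Sym2 (Fin n)) ∈ Sym2.map φ '' H.edgeSet := by
      rw [← himg]; exact ⟨e, he, rfl⟩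
    obtain ⟨x, hx, hxe⟩ := this
    have hx' : Sym2.map φ x ∈ (SimpleGraph.fromEdgeSet
          ((fun e : Pair n => (e : Sym2 (Fin n))) '' (S : Set (Pair n)))).edgeSet :=
        SimpleGraph.Hom.map_mem_edgeSet φ.toHom hx
    rw [SimpleGraph.edgeSet_fromEdgeSet, hxe] at hx'
    obtain ⟨y, hy, hye⟩ := hx'.1
    have : y = e := Subtype.ext hye
    rw [← this]; exact_mod_cast hy
  · have h1 : h.card = ((fun e : Pair n => (e : Sym2 (Fin n))) '' (h : Set (Pair n))).ncard := by
      rw [Set.ncard_image_of_injective _ Subtype.val_injective, Set.ncard_coe_finset]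
    rw [h1, himg, Set.ncard_image_of_injective _ hinj]
  · unfold Indep
    rw [SimpleGraph.Free, not_not, himg]
    refine ⟨⟨⟨φ, ?_⟩, φ.injective⟩⟩
    intro a b hab
    rw [SimpleGraph.fromEdgeSet_adj]
    refine ⟨⟨s(a, b), hab, rfl⟩, ?_⟩
    intro hc
    exact hab.ne (φ.injective hc)

theorem card_le_ex {S : Finset (Pair n)} (hS : Indep H S) :
    S.card ≤ SimpleGraph.extremalNumber n H := by
  have h1 := SimpleGraph.card_edgeFinset_le_extremalNumber hS
  rw [Fintype.card_fin] at h1
  refine le_trans (le_of_eq ?_) h1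
  have h2 : S.card = ((fun e : Pair n => (e : Sym2 (Fin n))) '' (S : Set (Pair n))).ncard := by
    rw [Set.ncard_image_of_injective _ Subtype.val_injective, Set.ncard_coe_finset]
  rw [h2, ← Set.ncard_coe_finset, SimpleGraph.coe_edgeFinset, SimpleGraph.edgeSet_fromEdgeSet]
  congr 1
  ext e
  constructor
  · rintro ⟨x, hx, rfl⟩
    exact ⟨⟨x, hx, rfl⟩, x.2⟩
  · rintro ⟨h, _⟩
    exact h

theorem one_le_ex (hH : 2 ≤ H.edgeSet.ncard) (hn : 2 ≤ n) :
    1 ≤ SimpleGraph.extremalNumber n H := by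
  have h01 : (⟨0, by omega⟩ : Fin n) ≠ ⟨1, by omega⟩ := by simp
  set e : Pair n := ⟨s(⟨0, by omega⟩, ⟨1, by omega⟩), by simpa using h01⟩
  have : Indep H {e} := by
    by_contra hcon
    obtain ⟨h, hh, hk, -⟩ := exists_forbidden hcon
    have := Finset.card_le_card hh
    rw [Finset.card_singleton] at this
    omega
  simpa using card_le_ex this

theorem indep_empty (hH : 2 ≤ H.edgeSet.ncard) : Indep H (∅ : Finset (Pair n)) := by
  by_contra hcon
  obtain ⟨h, hh, hk, -⟩ := exists_forbidden hcon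
  have := Finset.card_le_card hh
  rw [Finset.card_empty] at this
  omega

/-- The set of pairs that occur with label `true` in the sample `y`. -/
noncomputable def seen {m : ℕ} (y : Fin m → Pair n × Bool) : Finset (Pair n) :=
  Finset.univ.filter fun e => ∃ i, y i = (e, true)

/-- The tester: reject if and only if a copy of `H` is seen. -/
noncomputable def theTester (H : SimpleGraph V) (n m : ℕ) : Algorithm (Pair n) m := fun y =>
  if Indep H (seen y) then PMF.pure true else PMF.pure false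

theorem seen_eq {m : ℕ} (f : Pair n → Bool) (x : Fin m → Pair n) :
    seen (fun i => (x i, f (x i))) =
      Finset.univ.image x ∩ Finset.univ.filter (fun e => f e = true) := by
  ext e
  simp only [seen, Finset.mem_filter, Finset.mem_univ, true_and, Finset.mem_inter,
    Finset.mem_image, Prod.mk.injEq]
  constructor
  · rintro ⟨i, rfl, h⟩
    exact ⟨⟨i, rfl⟩, h⟩
  · rintro ⟨⟨i, rfl⟩, h⟩
    exact ⟨i, rfl, h⟩

theorem mem_hFree_iff (f : Pair n → Bool) :
    f ∈ hFree n H ↔ Indep H (Finset.univ.filter (fun e => f e = true)) := by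
  have : {e | ∃ h : ¬ e.IsDiag, f ⟨e, h⟩ = true} = (fun e : Pair n => (e : Sym2 (Fin n))) ''
      ((Finset.univ.filter (fun e => f e = true) : Finset (Pair n)) : Set (Pair n)) := by
    ext e
    constructor
    · rintro ⟨h, hf⟩
      exact ⟨⟨e, h⟩, by simpa using hf, rfl⟩
    · rintro ⟨x, hx, rfl⟩
      exact ⟨x.2, by simpa using hx⟩
  unfold hFree graphOf Indep
  rw [← this]
  rfl

theorem sum_toReal_eq_one (μ : PMF (Pair n)) : ∑ s, (μ s).toReal = 1 := by
  rw [← ENNReal.toReal_sum (fun s _ => μ.apply_ne_top s)]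
  have := μ.tsum_coe
  rw [tsum_fintype] at this
  rw [this, ENNReal.toReal_one]

theorem isTester (hH : 2 ≤ H.edgeSet.ncard) (hn : 2 ≤ n) {ε : ℝ} (hε0 : 0 < ε) (hε1 : ε < 1) :
    IsTester (hFree n H) ε (theTester H n
      (⌈2 * ((⌈4 * (H.edgeSet.ncard:ℝ) * (SimpleGraph.extremalNumber n H) / ε⌉₊ : ℝ) *
        (SimpleGraph.extremalNumber n H:ℝ) ^ (-(1 / (H.edgeSet.ncard:ℝ))))⌉₊ + 4)) := by
  intro μ f
  set m := (⌈2 * ((⌈4 * (H.edgeSet.ncard:ℝ) * (SimpleGraph.extremalNumber n H) / ε⌉₊ : ℝ) *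
        (SimpleGraph.extremalNumber n H:ℝ) ^ (-(1 / (H.edgeSet.ncard:ℝ))))⌉₊ + 4) with hm
  have hsum := sum_toReal_eq_one μ
  set w : Pair n → ℝ := fun s => (μ s).toReal with hwdef
  have hw : ∀ s, 0 ≤ w s := fun s => ENNReal.toReal_nonneg
  set E : Finset (Pair n) := Finset.univ.filter (fun e => f e = true) with hE
  constructor
  · intro hf
    rw [mem_hFree_iff] at hf
    have : answerProb (theTester H n m) μ f true = 1 := by
      unfold answerProb
      rw [← sum_prod_eq_one hsum m]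
      refine Finset.sum_congr rfl fun x _ => ?_
      have : Indep H (seen (fun i => (x i, f (x i)))) := by
        rw [seen_eq]
        exact Indep_mono Finset.inter_subset_right hf
      rw [theTester, if_pos this]
      simp
    rw [this]; norm_num
  · intro hfar
    have hbad := Bad_le_third (Λ := Pair n) (w := w) (E := E) (I := Indep H) hε0 hε1.le hw hsum
      (fun S T h hT => Indep_mono h hT) (indep_empty hH) hH (one_le_ex hH hn)
      (fun S _ hS => exists_forbidden hS) (fun S _ hS => card_le_ex hS)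
      (by
        intro S hSE hS
        set g : Pair n → Bool := fun e => decide (e ∈ S) with hg
        have hgS : Finset.univ.filter (fun e => g e = true) = S := by
          ext e; simp [hg]
        have hgm : g ∈ hFree n H := by
          rw [mem_hFree_iff, hgS]; exact hS
        refine (hfar g hgm).trans (le_of_eq ?_)
        unfold dist
        refine Finset.sum_congr ?_ fun _ _ => rfl
        ext e
        simp only [Finset.mem_filter, Finset.mem_univ, true_and, Finset.mem_sdiff, hE, hg]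
        constructor
        · intro hne
          by_cases heS : e ∈ S
          · have := hSE heS
            rw [hE, Finset.mem_filter] at this
            simp [heS, this.2] at hne
          · simp only [heS, decide_false, ne_eq, Bool.not_eq_false] at hne
            exact ⟨hne, heS⟩
        · rintro ⟨h1, h2⟩
          simp [h1, h2])
    rw [← hm] at hbad
    have heq : answerProb (theTester H n m) μ f false = 1 - Bad w E (Indep H) m ∅ := by
      have h1 : (1:ℝ) - Bad w E (Indep H) m ∅ =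
          ∑ x : Fin m → Pair n, ∏ i, w (x i) - Bad w E (Indep H) m ∅ := by
        rw [sum_prod_eq_one hsum m]
      rw [h1, Bad_eq_sum, ← Finset.sum_sub_distrib]
      unfold answerProb
      refine Finset.sum_congr rfl fun x _ => ?_
      rw [Finset.empty_union, ← seen_eq]
      by_cases hx : Indep H (seen (fun i => (x i, f (x i))))
      · rw [theTester, if_pos hx, if_pos hx]
        simp [hwdef]
      · rw [theTester, if_neg hx, if_neg hx]
        simp [hwdef]
    rw [heq]; linarith

theorem numeric_bound {k d : ℕ} (hk : 2 ≤ k) (hd1 : 1 ≤ d) {ε : ℝ} (hε0 : 0 < ε) (hε1 : ε < 1) :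
    ((⌈2 * ((⌈4 * (k:ℝ) * d / ε⌉₊ : ℝ) * (d:ℝ) ^ (-(1 / (k:ℝ))))⌉₊ + 4 : ℕ) : ℝ) ≤
      15 * (k:ℝ) / ε * (d:ℝ) ^ (1 - 1 / (k:ℝ)) := by
  have hkR : (2:ℝ) ≤ k := by exact_mod_cast hk
  have hdR : (1:ℝ) ≤ d := by exact_mod_cast hd1
  have hdpos : (0:ℝ) < d := by linarith
  set p : ℝ := (d:ℝ) ^ (-(1 / (k:ℝ))) with hp
  have hp0 : 0 ≤ p := by positivity
  have hq : (d:ℝ) ^ (1 - 1 / (k:ℝ)) = d * p := by
    rw [hp, sub_eq_add_neg, Real.rpow_add hdpos, Real.rpow_one]
  have hq1 : 1 ≤ (d:ℝ) ^ (1 - 1 / (k:ℝ)) := by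
    apply Real.one_le_rpow hdR
    have : (1:ℝ) / k ≤ 1 := by
      rw [div_le_one (by linarith)]; linarith
    linarith
  set q := (d:ℝ) ^ (1 - 1 / (k:ℝ)) with hqdef
  have hN : (⌈4 * (k:ℝ) * d / ε⌉₊ : ℝ) ≤ 4 * (k:ℝ) * d / ε + 1 :=
    (Nat.ceil_lt_add_one (by positivity)).le
  have hN2 : 4 * (k:ℝ) * d / ε + 1 ≤ 5 * k * d / ε := by
    have : 1 ≤ k * d / ε := by
      rw [le_div_iff₀ hε0]; nlinarith
    have e : 5 * k * d / ε = 4 * (k:ℝ) * d / ε + k * d / ε := by ring
    rw [e]; linarith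
  have hNp : 2 * ((⌈4 * (k:ℝ) * d / ε⌉₊ : ℝ) * p) ≤ 10 * k / ε * q := by
    have := mul_le_mul_of_nonneg_right (hN.trans hN2) hp0
    have e : 10 * k / ε * q = 2 * (5 * k * d / ε * p) := by rw [hq]; ring
    rw [e]; linarith
  have hm : (⌈2 * ((⌈4 * (k:ℝ) * d / ε⌉₊ : ℝ) * p)⌉₊ : ℝ) ≤
      2 * ((⌈4 * (k:ℝ) * d / ε⌉₊ : ℝ) * p) + 1 :=
    (Nat.ceil_lt_add_one (by positivity)).le
  push_cast
  have h5 : 5 ≤ 5 * k / ε * q := by
    have h1 : 1 ≤ (k:ℝ) / ε := by rw [le_div_iff₀ hε0]; linarith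
    have : 1 * 1 ≤ (k:ℝ) / ε * q := mul_le_mul h1 hq1 (by norm_num) (by linarith)
    have e : 5 * k / ε * q = 5 * ((k:ℝ) / ε * q) := by ring
    rw [e]; linarith
  have e : 15 * k / ε * q = 10 * k / ε * q + 5 * k / ε * q := by ring
  rw [e]
  linarith

end Graph

/-- **Main result.** Let `H` be a simple graph with `e(H) ≥ 2` edges and put `c = 1 / e(H)`, so that
`0 < c < 1`. For every `ε ∈ (0,1)` and `n ≥ 2`, the number
`sam(H-free graphs on n vertices, ε)` is at most `(15 e(H) / ε) * ex(n,H)^(1-c)`. -/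
theorem result {V : Type*} [Finite V] (H : SimpleGraph V) (hH : 2 ≤ H.edgeSet.ncard) :
    ∃ c : ℝ, c = 1 / (H.edgeSet.ncard : ℝ) ∧ 0 < c ∧ c < 1 ∧
      ∀ ε : ℝ, 0 < ε → ε < 1 → ∀ n : ℕ, 2 ≤ n →
        IsLeast (sampleSizes (hFree n H) ε) (sam (hFree n H) ε) ∧
        (sam (hFree n H) ε : ℝ) ≤
          15 * (H.edgeSet.ncard : ℝ) / ε * (SimpleGraph.extremalNumber n H : ℝ) ^ (1 - c) := by
  have hkR : (2:ℝ) ≤ H.edgeSet.ncard := by exact_mod_cast hH
  refine ⟨1 / (H.edgeSet.ncard : ℝ), rfl, by positivity, ?_, ?_⟩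
  · rw [div_lt_one (by linarith)]; linarith
  · intro ε hε0 hε1 n hn
    have hmem : (⌈2 * ((⌈4 * (H.edgeSet.ncard:ℝ) * (SimpleGraph.extremalNumber n H) / ε⌉₊ : ℝ) *
        (SimpleGraph.extremalNumber n H:ℝ) ^ (-(1 / (H.edgeSet.ncard:ℝ))))⌉₊ + 4) ∈
        sampleSizes (hFree n H) ε := ⟨by omega, theTester H n _, isTester hH hn hε0 hε1⟩
    refine ⟨⟨Nat.sInf_mem ⟨_, hmem⟩, fun m hm => Nat.sInf_le hm⟩, ?_⟩
    refine le_trans ?_ (numeric_bound hH (one_le_ex hH hn) hε0 hε1)
    exact_mod_cast Nat.sInf_le hmem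

end Pool.Agent.Results.MP_c13ef9_lc.SampleComplexity
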